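import Pool.Agent.H812.SO.Stm

set_option autoImplicit false

namespace Pool.Agent.H17.SoEX

open Set Pool.Agent.H812.SO Pool.Agent.N229.SC

theorem proof_EX (hODE : S_ODE) (hSTU : S_STU) : S_EX := by
  intro n x hn hx
  have hnR : (1 : ℝ) ≤ n := by exact_mod_cast hn
  have hx1 : (1 : ℝ) ≤ x := hnR.trans hx
  have hx0 : 0 < x := by linarith
  have hν : 0 < (n : ℝ) ^ 2 - 1 / 4 := by nlinarith
  obtain ⟨q, hq⟩ : ∃ q : ℝ → ℝ, q = fun t => 1 - ((n : ℝ) ^ 2 - 1 / 4) / t ^ 2 := ⟨_, rfl⟩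
  have hqt : ∀ t, q t = 1 - ((n : ℝ) ^ 2 - 1 / 4) / t ^ 2 := fun t => by rw [hq]
  have hqx : 0 < q x := by
    rw [hqt, sub_pos, div_lt_one (by positivity)]
    nlinarith
  have hmono : ∀ t, x ≤ t → q x ≤ q t := by
    intro t ht
    rw [hqt, hqt]
    have h1 : x ^ 2 ≤ t ^ 2 := pow_le_pow_left₀ hx0.le ht 2
    have h2 : ((n : ℝ) ^ 2 - 1 / 4) / t ^ 2 ≤ ((n : ℝ) ^ 2 - 1 / 4) / x ^ 2 :=
      div_le_div_of_nonneg_left hν.le (by positivity) h1
    linarith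
  have hs : 0 < Real.sqrt (q x) := Real.sqrt_pos.2 hqx
  have hω : 0 < Real.sqrt (q x) / 2 := by linarith
  have hω2 : (Real.sqrt (q x) / 2) ^ 2 = q x / 4 := by
    rw [div_pow, Real.sq_sqrt hqx.le]
    norm_num
  obtain ⟨t, ht, hw⟩ := hSTU (fun t => Real.sqrt t * Fb t n) (ww n) q x (Real.sqrt (q x) / 2) hω (by
    intro t ht
    have ht0 : 0 < t := lt_of_lt_of_le hx0 ht.1
    obtain ⟨h1, h2⟩ := hODE n t ht0
    refine ⟨h1, ?_, ?_⟩
    · rw [hqt]; exact h2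
    · rw [hω2]
      have := hmono t ht.1
      linarith)
  have ht0 : 0 < t := lt_trans hx0 ht.1
  have hw' : Real.sqrt t * Fb t n = 0 := hw
  have hF : Fb t n = 0 := by
    rcases mul_eq_zero.1 hw' with h | h
    · exact absurd h (Real.sqrt_pos.2 ht0).ne'
    · exact h
  refine ⟨t, ht.1, ?_, hF⟩
  have e : Real.pi / (Real.sqrt (q x) / 2) = 2 * hh n x := by
    unfold hh
    rw [← hqt]
    field_simp
  have h3 := ht.2
  rw [e] at h3
  exact h3.le

theorem proof_SIM (hN1 : S_N1) : S_SIM := by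
  intro n x hx h0 h1
  obtain ⟨hrec, _, hpos⟩ := hN1 x hx
  have key : ∀ k : ℕ, Fb x (n + k) = 0 ∧ Fb x (n + k + 1) = 0 := by
    intro k
    induction k with
    | zero => exact ⟨h0, h1⟩
    | succ k ih =>
      have h := hrec (n + k)
      rw [ih.1, ih.2, mul_zero, zero_sub] at h
      have h2 : Fb x (n + k + 2) = 0 := by linarith
      exact ⟨ih.2, h2⟩
  obtain ⟨N, hN⟩ := exists_nat_ge x
  have h2 := (hpos (n + N) (by push_cast; have : (0 : ℝ) ≤ n := Nat.cast_nonneg n; linarith)).1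
  rw [(key N).1] at h2
  exact lt_irrefl _ h2

end Pool.Agent.H17.SoEX
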